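import Pool.Agent.U180.DP.Stm2

/-!
# Two Bertrand series (package SER)
-/

set_option autoImplicit false

namespace Pool.Agent.U600.DP

open Pool.Agent.U180.DP
open Filter Topology

lemma e_lt_log {x : ℝ} (hx : 16 ≤ x) : Real.exp 1 < Real.log x := by
  have h1 := Real.exp_one_lt_d9
  have h2 := Real.log_two_gt_d9
  have h3 : Real.log 16 = 4 * Real.log 2 := by
    rw [show (16 : ℝ) = 2 ^ 4 by norm_num, Real.log_pow]
    norm_num
  have h4 : Real.log 16 ≤ Real.log x := Real.log_le_log (by norm_num) hx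
  linarith

lemma log_pos' {x : ℝ} (hx : 16 ≤ x) : 0 < Real.log x :=
  lt_trans (Real.exp_pos 1) (e_lt_log hx)

lemma one_le_ll {x : ℝ} (hx : 16 ≤ x) : 1 ≤ Real.log (Real.log x) := by
  rw [Real.le_log_iff_exp_le (log_pos' hx)]
  exact (e_lt_log hx).le

lemma ll_mono {x y : ℝ} (hx : 16 ≤ x) (hxy : x ≤ y) :
    Real.log (Real.log x) ≤ Real.log (Real.log y) :=
  Real.log_le_log (log_pos' hx) (Real.log_le_log (by linarith) hxy)

/-- the terms -/
noncomputable def f (s x : ℝ) : ℝ := 1 / (x * Real.log x * (Real.log (Real.log x)) ^ s)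

/-- the primitive -/
noncomputable def F (s x : ℝ) : ℝ := (Real.log (Real.log x)) ^ (1 - s) / (1 - s)

lemma den_pos {s x : ℝ} (hx : 16 ≤ x) : 0 < x * Real.log x * (Real.log (Real.log x)) ^ s :=
  mul_pos (mul_pos (by linarith) (log_pos' hx))
    (Real.rpow_pos_of_pos (lt_of_lt_of_le one_pos (one_le_ll hx)) s)

lemma f_pos {s x : ℝ} (hx : 16 ≤ x) : 0 < f s x := one_div_pos.2 (den_pos hx)

lemma f_anti {s x y : ℝ} (hs : 0 ≤ s) (hx : 16 ≤ x) (hxy : x ≤ y) : f s y ≤ f s x := by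
  refine one_div_le_one_div_of_le (den_pos hx) ?_
  have h1 : Real.log x ≤ Real.log y := Real.log_le_log (by linarith) hxy
  have h2 := ll_mono hx hxy
  have h3 := one_le_ll hx
  have h4 := log_pos' hx
  exact mul_le_mul (mul_le_mul hxy h1 h4.le (by linarith))
    (Real.rpow_le_rpow (by linarith) h2 hs) (Real.rpow_nonneg (by linarith) s)
    (mul_nonneg (by linarith) (by linarith))

lemma hasDeriv {s x : ℝ} (hs : s ≠ 1) (hx : 16 ≤ x) : HasDerivAt (F s) (f s x) x := by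
  have hx0 : x ≠ 0 := by linarith
  have h4 := log_pos' hx
  have h3 := one_le_ll hx
  have h0 : 0 < Real.log (Real.log x) := by linarith
  have h1 : HasDerivAt (fun y => Real.log (Real.log y)) (x⁻¹ / Real.log x) x :=
    (Real.hasDerivAt_log hx0).log h4.ne'
  have h2 := (h1.rpow_const (p := 1 - s) (Or.inl h0.ne')).div_const (1 - s)
  have hs' : 1 - s ≠ 0 := sub_ne_zero.2 (Ne.symm hs)
  have e : x⁻¹ / Real.log x * (1 - s) * Real.log (Real.log x) ^ (1 - s - 1) / (1 - s) = f s x := by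
    rw [f, show 1 - s - 1 = -s by ring, Real.rpow_neg h0.le]
    have := (Real.rpow_pos_of_pos h0 s).ne'
    field_simp
  rw [e] at h2
  exact h2

lemma step {s : ℝ} (hs : 0 ≤ s) (hs1 : s ≠ 1) {x : ℝ} (hx : 16 ≤ x) :
    f s (x + 1) ≤ F s (x + 1) - F s x ∧ F s (x + 1) - F s x ≤ f s x := by
  obtain ⟨c, hc, e⟩ := exists_hasDerivAt_eq_slope (F s) (f s) (show x < x + 1 by linarith)
    (fun y hy => (hasDeriv hs1 (le_trans hx hy.1)).continuousAt.continuousWithinAt)
    (fun y hy => hasDeriv hs1 (le_trans hx hy.1.le))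
  rw [show x + 1 - x = 1 by ring, div_one] at e
  rw [← e]
  exact ⟨f_anti hs (le_trans hx hc.1.le) hc.2.le, f_anti hs hx hc.1.le⟩

lemma sum_up {s : ℝ} (hs : 0 ≤ s) (hs1 : s ≠ 1) (n : ℕ) :
    ∑ i ∈ Finset.range n, f s ((i + 17 : ℕ) : ℝ) ≤ F s ((n + 16 : ℕ) : ℝ) - F s 16 := by
  induction n with
  | zero => simp
  | succ n ih =>
    rw [Finset.sum_range_succ]
    have h := (step hs hs1 (x := ((n + 16 : ℕ) : ℝ)) (by push_cast; linarith [Nat.cast_nonneg (α := ℝ) n])).1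
    have e1 : ((n + 16 : ℕ) : ℝ) + 1 = ((n + 17 : ℕ) : ℝ) := by push_cast; ring
    have e2 : ((n + 1 + 16 : ℕ) : ℝ) = ((n + 17 : ℕ) : ℝ) := by push_cast; ring
    rw [e1] at h
    rw [e2]
    linarith

lemma sum_down {s : ℝ} (hs : 0 ≤ s) (hs1 : s ≠ 1) (n : ℕ) :
    F s ((n + 16 : ℕ) : ℝ) - F s 16 ≤ ∑ i ∈ Finset.range n, f s ((i + 16 : ℕ) : ℝ) := by
  induction n with
  | zero => simp
  | succ n ih =>
    rw [Finset.sum_range_succ]
    have h := (step hs hs1 (x := ((n + 16 : ℕ) : ℝ)) (by push_cast; linarith [Nat.cast_nonneg (α := ℝ) n])).2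
    have e1 : ((n + 16 : ℕ) : ℝ) + 1 = ((n + 1 + 16 : ℕ) : ℝ) := by push_cast; ring
    rw [e1] at h
    linarith

lemma summable_f {s : ℝ} (hs : 1 < s) : Summable (fun n : ℕ => f s (n : ℝ)) := by
  rw [← summable_nat_add_iff 17]
  refine summable_of_sum_range_le (c := - F s 16) (fun n => (f_pos (by push_cast; linarith [Nat.cast_nonneg (α := ℝ) n])).le)
    (fun n => ?_)
  have h := sum_up (s := s) (by linarith) (by linarith) n
  have h2 : F s ((n + 16 : ℕ) : ℝ) ≤ 0 := by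
    refine div_nonpos_of_nonneg_of_nonpos (Real.rpow_nonneg ?_ _) (by linarith)
    have := one_le_ll (x := ((n + 16 : ℕ) : ℝ)) (by push_cast; linarith [Nat.cast_nonneg (α := ℝ) n])
    linarith
  linarith

lemma tendsto_F {s : ℝ} (hs : s < 1) : Tendsto (fun n : ℕ => F s ((n + 16 : ℕ) : ℝ)) atTop atTop := by
  have h0 : Tendsto (fun n : ℕ => ((n + 16 : ℕ) : ℝ)) atTop atTop :=
    tendsto_natCast_atTop_atTop.comp (tendsto_add_atTop_nat 16)
  have h1 := Real.tendsto_log_atTop.comp (Real.tendsto_log_atTop.comp h0)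
  have h2 := (tendsto_rpow_atTop (show 0 < 1 - s by linarith)).comp h1
  exact h2.atTop_div_const (by linarith)

lemma not_summable_f {s : ℝ} (hs : 0 ≤ s) (hs1 : s < 1) {g : ℕ → ℝ} {c : ℝ} (hc : 0 < c)
    (hg : ∀ n : ℕ, 16 ≤ n → c * f s (n : ℝ) ≤ g n) : ¬ Summable g := by
  intro h
  have h' : Summable (fun n => g (n + 16)) := (summable_nat_add_iff 16).2 h
  have hn : ∀ n : ℕ, c * f s ((n + 16 : ℕ) : ℝ) ≤ g (n + 16) := fun n => hg _ (by omega)
  have hp : ∀ n : ℕ, 0 ≤ g (n + 16) := fun n => le_trans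
    (mul_nonneg hc.le (f_pos (by push_cast; linarith [Nat.cast_nonneg (α := ℝ) n])).le) (hn n)
  have hb : ∀ n : ℕ, c * (F s ((n + 16 : ℕ) : ℝ) - F s 16) ≤ ∑' i, g (i + 16) := by
    intro n
    calc c * (F s ((n + 16 : ℕ) : ℝ) - F s 16)
        ≤ c * ∑ i ∈ Finset.range n, f s ((i + 16 : ℕ) : ℝ) :=
          mul_le_mul_of_nonneg_left (sum_down hs hs1.ne n) hc.le
      _ = ∑ i ∈ Finset.range n, c * f s ((i + 16 : ℕ) : ℝ) := Finset.mul_sum _ _ _
      _ ≤ ∑ i ∈ Finset.range n, g (i + 16) := Finset.sum_le_sum (fun i _ => hn i)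
      _ ≤ _ := h'.sum_le_tsum _ (fun i _ => hp i)
  obtain ⟨n, hn'⟩ := ((tendsto_F hs1).eventually_gt_atTop ((∑' i, g (i + 16)) / c + F s 16)).exists
  have h1 := hb n
  rw [← le_div_iff₀' hc] at h1
  linarith

theorem t_SER : S_SER := by
  intro ε hε
  refine ⟨summable_f (s := 1 + ε) (by linarith), fun c hc => ?_⟩
  have hm : 0 < min ε 1 := lt_min hε one_pos
  refine not_summable_f (s := 1 - min ε 1) (by linarith [min_le_right ε 1]) (by linarith) hc ?_
  intro n hn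
  have hn' : (16 : ℝ) ≤ (n : ℝ) := by exact_mod_cast hn
  rw [f, mul_one_div]
  refine div_le_div_of_nonneg_left hc.le (den_pos hn') ?_
  refine mul_le_mul_of_nonneg_left ?_ (mul_nonneg (by linarith) (log_pos' hn').le)
  exact Real.rpow_le_rpow_of_exponent_le (one_le_ll hn') (by linarith [min_le_left ε 1])

end Pool.Agent.U600.DP
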